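import Mathlib

/-!
# A 3-critical graph with 55 vertices and independent domination number 4

The graph is the complement of a Cayley graph of degree `12` of the nonabelian group of order `55`.
In the Cayley graph `H` any two vertices and any three mutually adjacent vertices have a common
neighbour, and for every edge `u v` there is `w` such that `v` is the only common neighbour of
`u` and `w`, or `u` is the only common neighbour of `v` and `w`.
-/

set_option autoImplicit false

open Finset

namespace Pool.Agent.Results.MP_5ead0a_co.FiftyFive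

/-- every vertex outside `D` has a neighbour in `D` -/
def IsDominating {V : Type} (G : SimpleGraph V) (D : Finset V) : Prop :=
  ∀ v, v ∉ D → ∃ d ∈ D, G.Adj v d

/-- no two vertices of `D` are adjacent -/
def IsIndependent {V : Type} (G : SimpleGraph V) (D : Finset V) : Prop :=
  ∀ u ∈ D, ∀ v ∈ D, ¬ G.Adj u v

/-- the least size of a dominating set -/
noncomputable def dominationNumber {V : Type} (G : SimpleGraph V) : ℕ :=
  sInf {k : ℕ | ∃ D : Finset V, D.card = k ∧ IsDominating G D}

/-- the least size of an independent dominating set -/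
noncomputable def independentDominationNumber {V : Type} (G : SimpleGraph V) : ℕ :=
  sInf {k : ℕ | ∃ D : Finset V, D.card = k ∧ IsDominating G D ∧ IsIndependent G D}

/-- `γ(G) = 3`, and adding any edge between distinct non-adjacent vertices gives a graph with
`γ < 3` -/
def ThreeCritical {V : Type} (G : SimpleGraph V) : Prop :=
  dominationNumber G = 3 ∧
    ∀ u v : V, u ≠ v → ¬ G.Adj u v → dominationNumber (G ⊔ SimpleGraph.edge u v) < 3

/-- the neighbourhoods in the Cayley graph `H`, as bit masks -/
def hm : List Nat :=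
  [7602163333218816, 9020532498403360, 9095237497610528, 4662497446003904, 1310723364226048,
   27096444549218310, 426663797195784, 2817223771825160, 5084730196269060, 5914350636269569,
   2395097119850712, 13653241510265088, 18093566660477186, 18596178204754052, 9115235265806373,
   4585513797294850, 4558164100915212, 2533380831846480, 18616950248706192, 3457152354092200,
   2621253437579332, 1746063153430916, 9010592581159426, 19281655655174672, 2542484274058499,
   11822515964610690, 19845223890825345, 108586445389896, 4523431643202065, 9301902731944034,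
   18032540677902410, 22557615184023601, 3474766252476672, 634624506610212, 9430511270497352,
   580549389453648, 1267745509475892, 3106129022361603, 20307984211526784, 13545984504203528,
   18577580462516736, 4539059284264577, 27338534677643362, 1337148427505682, 1125939906945292,
   18021822497112080, 1134709020610596, 10141981229452376, 6759952661217857, 1280003285377,
   237567604163088, 281891640575105, 284226171800329, 145703045187622, 40960105132064]

/-- the mask of a vertex -/
def m (x : Fin 55) : Nat := hm.getD x 0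

theorem m_symm : ∀ x y : Fin 55, (m x).testBit y = (m y).testBit x := by decide +kernel

theorem m_irrefl : ∀ x : Fin 55, (m x).testBit x = false := by decide +kernel

theorem m_lt : ∀ x : Fin 55, m x < 2 ^ 55 := by decide +kernel

/-- the complement of the Cayley graph -/
def G : SimpleGraph (Fin 55) where
  Adj x y := x ≠ y ∧ (m x).testBit y = false
  symm := ⟨fun x y h => ⟨h.1.symm, by rw [← m_symm]; exact h.2⟩⟩
  loopless := ⟨fun x h => h.1 rfl⟩

theorem exists_bit {a b : Fin 55} (h : Nat.land (m a) (m b) ≠ 0) :
    ∃ x : Fin 55, (m a).testBit x = true ∧ (m b).testBit x = true := by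
  obtain ⟨i, hi⟩ := Nat.exists_testBit_of_ne_zero h
  have h1 : ((m a) &&& (m b)).testBit i = true := hi
  rw [Nat.testBit_and, Bool.and_eq_true] at h1
  have hlt : i < 55 := by
    by_contra hge
    have h5 : m a < 2 ^ i := lt_of_lt_of_le (m_lt a) (Nat.pow_le_pow_right (by norm_num) (by omega))
    rw [Nat.testBit_lt_two_pow h5] at h1
    exact absurd h1.1 (by simp)
  exact ⟨⟨i, hlt⟩, h1.1, h1.2⟩

theorem two_common : ∀ a b : Fin 55, Nat.land (m a) (m b) ≠ 0 := by decide +kernel

theorem three_common : ∀ a b : Fin 55, (m a).testBit b = true → ∀ c : Fin 55,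
    (m a).testBit c = true → (m b).testBit c = true →
      Nat.land (Nat.land (m a) (m b)) (m c) ≠ 0 := by decide +kernel

theorem edge_crit : ∀ u v : Fin 55, (m u).testBit v = true →
    ∃ w : Fin 55, (w ≠ u ∧ w ≠ v) ∧
      (Nat.land (m u) (m w) = 2 ^ (v : ℕ) ∨ Nat.land (m v) (m w) = 2 ^ (u : ℕ)) := by
  decide +kernel

theorem not_dom_two (D : Finset (Fin 55)) (hD : D.card ≤ 2) : ¬ IsDominating G D := by
  intro h
  obtain ⟨a, b, hab⟩ : ∃ a b : Fin 55, D ⊆ {a, b} := by
    rcases Nat.lt_or_ge D.card 1 with h0 | h0
    · have : D = ∅ := Finset.card_eq_zero.1 (by omega)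
      exact ⟨0, 0, by rw [this]; exact Finset.empty_subset _⟩
    · rcases Nat.lt_or_ge D.card 2 with h1 | h1
      · obtain ⟨a, rfl⟩ := Finset.card_eq_one.1 (show D.card = 1 by omega)
        exact ⟨a, a, by simp⟩
      · obtain ⟨a, b, -, rfl⟩ := Finset.card_eq_two.1 (show D.card = 2 by omega)
        exact ⟨a, b, subset_rfl⟩
  obtain ⟨x, hxa, hxb⟩ := exists_bit (two_common a b)
  have hxa' : x ≠ a := by rintro rfl; rw [m_irrefl] at hxa; exact absurd hxa (by simp)
  have hxb' : x ≠ b := by rintro rfl; rw [m_irrefl] at hxb; exact absurd hxb (by simp)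
  have hx : x ∉ D := by
    intro hx
    have := hab hx
    simp only [Finset.mem_insert, Finset.mem_singleton] at this
    tauto
  obtain ⟨d, hd, hadj⟩ := h x hx
  have hd' := hab hd
  simp only [Finset.mem_insert, Finset.mem_singleton] at hd'
  have h2 := hadj.2
  rw [m_symm] at h2
  rcases hd' with rfl | rfl
  · rw [hxa] at h2; exact absurd h2 (by simp)
  · rw [hxb] at h2; exact absurd h2 (by simp)

theorem dom_of {D : Finset (Fin 55)} (h : ∀ x : Fin 55, x ∉ D → ∃ d ∈ D, (m x).testBit d = false) :
    IsDominating G D := by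
  intro x hx
  obtain ⟨d, hd, h1⟩ := h x hx
  exact ⟨d, hd, fun h2 => hx (h2 ▸ hd), h1⟩

theorem gamma_three : dominationNumber G = 3 := by
  have hmem : 3 ∈ {k : ℕ | ∃ D : Finset (Fin 55), D.card = k ∧ IsDominating G D} :=
    ⟨{0, 1, 2}, by decide, dom_of (by decide +kernel)⟩
  refine le_antisymm (Nat.sInf_le hmem) ?_
  by_contra hlt
  push Not at hlt
  obtain ⟨D, h1, h2⟩ := Nat.sInf_mem ⟨3, hmem⟩
  have h3 : D.card ≤ 2 := by
    rw [h1]
    exact Nat.le_of_lt_succ hlt
  exact not_dom_two D h3 h2

theorem crit_aux {u v w : Fin 55} (huw : Nat.land (m u) (m w) = 2 ^ (v : ℕ))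
    (huv : u ≠ v) (hwu : w ≠ u) :
    ∃ D : Finset (Fin 55), D.card = 2 ∧ IsDominating (G ⊔ SimpleGraph.edge u v) D := by
  refine ⟨{u, w}, Finset.card_pair hwu.symm, ?_⟩
  intro x hx
  simp only [Finset.mem_insert, Finset.mem_singleton, not_or] at hx
  by_cases hxv : x = v
  · subst hxv
    refine ⟨u, by simp, ?_⟩
    rw [SimpleGraph.sup_adj]
    right
    rw [SimpleGraph.edge_adj]
    exact ⟨Or.inr ⟨rfl, rfl⟩, huv.symm⟩
  · have h1 : ((m u) &&& (m w)).testBit x = false := by
      have h0 : (m u) &&& (m w) = 2 ^ (v : ℕ) := huw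
      rw [h0, Nat.testBit_two_pow]
      simp only [decide_eq_false_iff_not]
      intro h
      exact hxv (Fin.ext h.symm)
    rw [Nat.testBit_and, Bool.and_eq_false_iff] at h1
    rcases h1 with h1 | h1
    · refine ⟨u, by simp, ?_⟩
      rw [SimpleGraph.sup_adj]
      left
      exact ⟨hx.1, by rw [m_symm]; exact h1⟩
    · refine ⟨w, by simp, ?_⟩
      rw [SimpleGraph.sup_adj]
      left
      exact ⟨hx.2, by rw [m_symm]; exact h1⟩

theorem critical (u v : Fin 55) (huv : u ≠ v) (hadj : ¬ G.Adj u v) :
    dominationNumber (G ⊔ SimpleGraph.edge u v) < 3 := by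
  have h1 : (m u).testBit v = true := by
    by_contra h
    exact hadj ⟨huv, by simpa using h⟩
  obtain ⟨w, ⟨hwu, hwv⟩, h | h⟩ := edge_crit u v h1
  · obtain ⟨D, hD1, hD2⟩ := crit_aux h huv hwu
    exact lt_of_le_of_lt (Nat.sInf_le ⟨D, hD1, hD2⟩) (by norm_num)
  · obtain ⟨D, hD1, hD2⟩ := crit_aux h huv.symm hwv
    rw [SimpleGraph.edge_comm] at hD2
    exact lt_of_le_of_lt (Nat.sInf_le ⟨D, hD1, hD2⟩) (by norm_num)

theorem not_indep_three (D : Finset (Fin 55)) (hD : D.card ≤ 3) (h : IsDominating G D)
    (hi : IsIndependent G D) : False := by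
  rcases Nat.lt_or_ge D.card 3 with h3 | h3
  · exact not_dom_two D (by omega) h
  · obtain ⟨a, b, c, hab, hac, hbc, rfl⟩ := Finset.card_eq_three.1 (show D.card = 3 by omega)
    have key : ∀ x y : Fin 55, x ≠ y → ¬ G.Adj x y → (m x).testBit y = true := by
      intro x y hxy hadj
      by_contra h
      exact hadj ⟨hxy, by simpa using h⟩
    have h1 := key a b hab (hi a (by simp) b (by simp))
    have h2 := key a c hac (hi a (by simp) c (by simp))
    have h4 := key b c hbc (hi b (by simp) c (by simp))
    have h5 := three_common a b h1 c h2 h4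
    obtain ⟨i, hi5⟩ := Nat.exists_testBit_of_ne_zero h5
    have h6 : (((m a) &&& (m b)) &&& (m c)).testBit i = true := hi5
    rw [Nat.testBit_and, Nat.testBit_and, Bool.and_eq_true, Bool.and_eq_true] at h6
    obtain ⟨⟨ha, hb⟩, hc⟩ := h6
    have hlt : i < 55 := by
      by_contra hge
      have h7 : m a < 2 ^ i :=
        lt_of_lt_of_le (m_lt a) (Nat.pow_le_pow_right (by norm_num) (by omega))
      rw [Nat.testBit_lt_two_pow h7] at ha
      exact absurd ha (by simp)
    have hne : ∀ y : Fin 55, (m y).testBit i = true → (⟨i, hlt⟩ : Fin 55) ≠ y := by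
      intro y hy h8
      have := m_irrefl y
      rw [← h8] at this hy
      rw [this] at hy
      exact absurd hy (by simp)
    have hx : (⟨i, hlt⟩ : Fin 55) ∉ ({a, b, c} : Finset (Fin 55)) := by
      simp only [Finset.mem_insert, Finset.mem_singleton, not_or]
      exact ⟨hne a ha, hne b hb, hne c hc⟩
    obtain ⟨d, hd, hadj⟩ := h _ hx
    have h9 := hadj.2
    rw [m_symm] at h9
    simp only [Finset.mem_insert, Finset.mem_singleton] at hd
    rcases hd with rfl | rfl | rfl
    · exact absurd (ha.symm.trans h9) (by simp)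
    · exact absurd (hb.symm.trans h9) (by simp)
    · exact absurd (hc.symm.trans h9) (by simp)

theorem i_four : independentDominationNumber G = 4 := by
  have hmem : 4 ∈ {k : ℕ | ∃ D : Finset (Fin 55), D.card = k ∧ IsDominating G D ∧
      IsIndependent G D} := by
    refine ⟨{0, 9, 48, 52}, by decide, dom_of (by decide +kernel), ?_⟩
    have h : ∀ u ∈ ({0, 9, 48, 52} : Finset (Fin 55)), ∀ v ∈ ({0, 9, 48, 52} : Finset (Fin 55)),
        u = v ∨ (m u).testBit v = true := by decide +kernel
    rintro u hu v hv ⟨h1, h2⟩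
    rcases h u hu v hv with h3 | h3
    · exact h1 h3
    · rw [h3] at h2; exact absurd h2 (by simp)
  refine le_antisymm (Nat.sInf_le hmem) ?_
  by_contra hlt
  push Not at hlt
  obtain ⟨D, h1, h2, h3⟩ := Nat.sInf_mem ⟨4, hmem⟩
  have h4 : D.card ≤ 3 := by
    rw [h1]
    exact Nat.le_of_lt_succ hlt
  exact not_indep_three D h4 h2 h3

theorem result : ∃ G : SimpleGraph (Fin 55), ThreeCritical G ∧ dominationNumber G = 3 ∧
    independentDominationNumber G = 4 :=
  ⟨G, ⟨gamma_three, critical⟩, gamma_three, i_four⟩

end Pool.Agent.Results.MP_5ead0a_co.FiftyFive
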